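import Pool.Agent.H560.SQ.Stm
import Pool.Agent.H599.AR.T2W

/-!
# Almost primes with both parities, abstract form with a window bound for every `s` (project SQ of
helper560, task T2G; adapted from the file of helper599, helper97 and helper181)
-/

set_option autoImplicit false

namespace Pool.Agent.H120.SQ

open Polynomial Filter
open scoped Classical
open Pool.Agent.H985.Chow (mob)
open Pool.Agent.H985.Par (Sft)
open Pool.Agent.H694.Typ (Mn Irn PU mem_Mn card_Mn mem_Irn mem_PU irn_ge card_dvd_e)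
open Pool.Agent.H560.SI (Smt)
open Pool.Agent.H560.AR (S_rtQ)
open Pool.Agent.H560.SQ
open Pool.Agent.H97.SI (exp_large Tn mem_Tn card_Tn card_class mob_cases mob_abs)
open Pool.Agent.H599.AR (not_dvd der fibres)

/-- the window of `F` -/
theorem window (hr : S_rtQ) {K : Type} [Field K] [Fintype K] [CharP K 2] {A : ℕ}
    (hA : ∀ (L m : ℕ) (Ps : Finset K[X]) (Ω : K[X] → Finset K[X]) (M a₀ : K[X]),
      1 ≤ m → A * m ≤ L →
      (∀ P ∈ Ps, P.Monic ∧ Irreducible P ∧ P.natDegree ≤ m ∧ IsCoprime M P) →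
      (∀ P ∈ Ps, (Ω P).card ≤ 1 ∧ (Ω P).card < Fintype.card K ^ P.natDegree ∧
        ∀ r ∈ Ω P, r.degree < P.degree) →
      let Sif : Set K[X] := {u | u.degree < (L : WithBot ℕ) ∧
        ∀ P ∈ Ps, ∀ r ∈ Ω P, ¬ P ∣ a₀ + M * u - r}
      let V : ℝ := ∏ P ∈ Ps, (1 - ((Ω P).card : ℝ) / (Fintype.card K : ℝ) ^ P.natDegree)
      (1 - 1 / 8) * V * (Fintype.card K : ℝ) ^ L ≤ Sif.ncard ∧
      (Sif.ncard : ℝ) ≤ (1 + 1 / 8) * V * (Fintype.card K : ℝ) ^ L ∧
      ∀ (F : K[X] → ℝ) (B : ℝ), (∀ u, |F u| ≤ 1) → 0 ≤ B →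
        (∀ (D r : K[X]) (L' : ℕ), D.Monic → D ∣ ∏ P ∈ Ps, P → D.natDegree + L' = L →
          D.natDegree ≤ A * m → r.degree < D.degree →
          |∑ᶠ v ∈ {v : K[X] | v.degree < (L' : WithBot ℕ)}, F (r + D * v)| ≤ B) →
        |∑ᶠ u ∈ Sif, F u| ≤ 1 / 8 * V * (Fintype.card K : ℝ) ^ L +
          2 * (((1 : ℕ) + 1 : ℝ) * Fintype.card K) ^ (A * m) * B)
    {n w L N z : ℕ} {Q s F : K[X]} {B V : ℝ}
    (hL : w + 2 * L ≤ n + 1) (hz1 : 1 ≤ z) (hzL : z ≤ L)
    (hz2 : A * z ≤ L) (hQ : Q.Monic) (hQd : Q.natDegree = w) (hQs : IsCoprime Q s)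
    (hs : s ≠ 0) (hsd : s.natDegree ≤ N) (hss : Smt (L / 8) s) (hF : F.Monic)
    (hFd : F.natDegree = n) (hFs : derivative (Q * F) = s ^ 2) (hB0 : 0 ≤ B)
    (hB : ∀ (F' D : K[X]) (L' : ℕ), F'.Monic → F'.natDegree = n →
      derivative (Q * F') = s ^ 2 → D.Monic → D.natDegree ≤ A * z → D.natDegree + L' = L →
      |∑ᶠ v ∈ {v : K[X] | v.degree < (L' : WithBot ℕ)}, (mob (F' + Q * (D * v) ^ 2) : ℝ)| ≤ B)
    (hV : V = ∏ P ∈ (PU K z).filter (fun P => ¬ P ∣ Q),
      (1 - 1 / (Fintype.card K : ℝ) ^ P.natDegree))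
    (hV1 : 2 * ((2 : ℝ) * Fintype.card K) ^ (A * z) * B ≤ 1 / 8 * V * (Fintype.card K : ℝ) ^ L)
    (hV2 : (N : ℝ) * (Fintype.card K : ℝ) ^ (L - z) ≤ 1 / 8 * V * (Fintype.card K : ℝ) ^ L)
    {σ : ℤ} (hσ : σ = 1 ∨ σ = -1) :
    1 / 4 * V * (Fintype.card K : ℝ) ^ L ≤
      ((Tn K L).filter (fun t => mob (F + Q * t ^ 2) = σ ∧ Sft z (F + Q * t ^ 2))).card := by
  have hq : 2 ≤ Fintype.card K := Fintype.one_lt_card
  -- the classes
  set Ps : Finset K[X] := (PU K z).filter (fun P => ¬ P ∣ Q) with hPs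
  have hPU : ∀ P ∈ Ps, P.Monic ∧ Irreducible P ∧ P.natDegree ≤ z ∧ ¬ P ∣ Q := by
    intro P hP
    rw [hPs, Finset.mem_filter, mem_PU] at hP
    exact ⟨hP.1.1, hP.1.2.1, hP.1.2.2, hP.2⟩
  have hex : ∀ P : K[X], ∃ r : K[X], (P ∈ Ps → r.degree < P.degree ∧
      ∀ t : K[X], P ∣ F + Q * t ^ 2 ↔ P ∣ t - r) := by
    intro P
    by_cases hP : P ∈ Ps
    · obtain ⟨r, h1, h2⟩ := hr K Q F P (hPU P hP).1 (hPU P hP).2.1 (hPU P hP).2.2.2
      exact ⟨r, fun _ => ⟨h1, h2⟩⟩
    · exact ⟨0, fun h => absurd h hP⟩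
  choose rP hrP using hex
  have key := hA L z Ps (fun P => {rP P}) 1 0 hz1 hz2
    (fun P hP => ⟨(hPU P hP).1, (hPU P hP).2.1, (hPU P hP).2.2.1, isCoprime_one_left⟩)
    (fun P hP => by
      refine ⟨by rw [Finset.card_singleton], ?_, ?_⟩
      · rw [Finset.card_singleton]
        have h1 : 1 ≤ P.natDegree := (hPU P hP).2.1.natDegree_pos
        calc 1 < Fintype.card K := hq
          _ = Fintype.card K ^ 1 := (pow_one _).symm
          _ ≤ Fintype.card K ^ P.natDegree := Nat.pow_le_pow_right (by omega) h1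
      · intro r hr'
        rw [Finset.mem_singleton] at hr'
        rw [hr']
        exact (hrP P hP).1)
  simp only [Finset.card_singleton, Nat.cast_one] at key
  -- the sifted set
  set W : Finset K[X] := (Tn K L).filter (fun t => Sft z (F + Q * t ^ 2)) with hW
  have hsif : {u : K[X] | u.degree < (L : WithBot ℕ) ∧
      ∀ P ∈ Ps, ∀ r ∈ ({rP P} : Finset K[X]), ¬ P ∣ 0 + 1 * u - r} = (W : Set K[X]) := by
    ext t
    rw [hW, Finset.coe_filter]
    simp only [Set.mem_ofPred_eq, mem_Tn, Finset.mem_singleton, forall_eq, zero_add, one_mul]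
    refine and_congr_right fun _ => ?_
    constructor
    · intro h P hP1 hP2 hP3
      by_contra hlt
      have hPQ : ¬ P ∣ Q := fun hPQ => not_dvd hQs (der hFs t) hP2 hPQ hP3
      have hP : P ∈ Ps := by
        rw [hPs, Finset.mem_filter]
        exact ⟨mem_PU.2 ⟨hP1, hP2, not_lt.1 hlt⟩, hPQ⟩
      exact h P hP (((hrP P hP).2 t).1 hP3)
    · intro h P hP hd
      have h1 := h P (hPU P hP).1 (hPU P hP).2.1 (((hrP P hP).2 t).2 hd)
      have h2 := (hPU P hP).2.2.1
      omega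
  rw [hsif, Set.ncard_coe_finset] at key
  rw [← hV] at key
  obtain ⟨k1, -, k3⟩ := key
  have k4 := k3 (fun t => (mob (F + Q * t ^ 2) : ℝ)) B (fun t => mob_abs _) hB0 (by
    intro D r L' hD _ hDL hDA hrD
    have hrm : (Q * r ^ 2).degree < F.degree := by
      by_cases hr0 : r = 0
      · rw [hr0, zero_pow (by norm_num), mul_zero, degree_zero, degree_eq_natDegree hF.ne_zero]
        exact WithBot.bot_lt_coe _
      · have h1 : r.natDegree < D.natDegree := natDegree_lt_natDegree hr0 hrD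
        rw [degree_eq_natDegree hF.ne_zero, hFd,
          degree_eq_natDegree (mul_ne_zero hQ.ne_zero (pow_ne_zero 2 hr0)),
          hQ.natDegree_mul' (pow_ne_zero 2 hr0), natDegree_pow, hQd]
        exact_mod_cast (by omega : w + 2 * r.natDegree < n)
    have hF' : (F + Q * r ^ 2).Monic := hF.add_of_left hrm
    have hFd' : (F + Q * r ^ 2).natDegree = n := by
      rw [natDegree_add_eq_left_of_degree_lt hrm, hFd]
    have h2 := hB (F + Q * r ^ 2) D L' hF' hFd' (der hFs r) hD hDA hDL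
    have e2 : ∀ v : K[X], F + Q * (r + D * v) ^ 2 = F + Q * r ^ 2 + Q * (D * v) ^ 2 := by
      intro v
      rw [CharTwo.add_sq]
      ring
    simp only [e2]
    exact h2)
  rw [finsum_mem_coe_finset] at k4
  have k5 : (((1 : ℕ) + 1 : ℝ) * Fintype.card K) = (2 : ℝ) * Fintype.card K := by norm_num
  have k6 : |∑ t ∈ W, (mob (F + Q * t ^ 2) : ℝ)| ≤
      1 / 4 * V * (Fintype.card K : ℝ) ^ L := by
    refine k4.trans ?_
    norm_num at hV1 ⊢
    linarith
  -- the three parts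
  set Wσ : Finset K[X] := W.filter (fun t => mob (F + Q * t ^ 2) = σ) with hWσ
  set W' : Finset K[X] := W.filter (fun t => mob (F + Q * t ^ 2) = -σ) with hW'
  set W0 : Finset K[X] := W.filter (fun t => mob (F + Q * t ^ 2) = 0) with hW0
  have hσ0 : σ ≠ 0 := by rcases hσ with h | h <;> rw [h] <;> norm_num
  have hσσ : σ * σ = 1 := by rcases hσ with h | h <;> rw [h] <;> norm_num
  have hcases : ∀ t : K[X], mob (F + Q * t ^ 2) = σ ∨ mob (F + Q * t ^ 2) = -σ ∨
      mob (F + Q * t ^ 2) = 0 := by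
    intro t
    rcases mob_cases (F + Q * t ^ 2) with h | h | ⟨h, -⟩ <;> rcases hσ with h' | h' <;>
      rw [h, h'] <;> norm_num
  have hi : ∀ t : K[X], (1 : ℝ) = (if mob (F + Q * t ^ 2) = σ then (1 : ℝ) else 0) +
      (if mob (F + Q * t ^ 2) = -σ then (1 : ℝ) else 0) +
      (if mob (F + Q * t ^ 2) = 0 then (1 : ℝ) else 0) := by
    intro t
    have h1 : σ ≠ -σ := fun h => hσ0 (by omega)
    have h2 : -σ ≠ 0 := by omega
    rcases hcases t with h | h | h
    · rw [h, if_pos rfl, if_neg h1, if_neg hσ0]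
      norm_num
    · rw [h, if_pos rfl, if_neg h1.symm, if_neg h2]
      norm_num
    · rw [h, if_pos rfl, if_neg hσ0.symm, if_neg h2.symm]
      norm_num
  have hj : ∀ t : K[X], (mob (F + Q * t ^ 2) : ℝ) =
      (σ : ℝ) * ((if mob (F + Q * t ^ 2) = σ then (1 : ℝ) else 0) -
      (if mob (F + Q * t ^ 2) = -σ then (1 : ℝ) else 0)) := by
    intro t
    have h1 : σ ≠ -σ := fun h => hσ0 (by omega)
    have h2 : -σ ≠ 0 := by omega
    rcases hcases t with h | h | h
    · rw [h, if_pos rfl, if_neg h1]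
      ring
    · rw [h, if_pos rfl, if_neg h1.symm]
      push_cast
      ring
    · rw [h, if_neg hσ0.symm, if_neg h2.symm]
      push_cast
      ring
  have s1 : (W.card : ℝ) = (Wσ.card : ℝ) + W'.card + W0.card := by
    rw [hWσ, hW', hW0, Finset.card_eq_sum_ones, Finset.card_filter, Finset.card_filter,
      Finset.card_filter]
    push_cast
    rw [← Finset.sum_add_distrib, ← Finset.sum_add_distrib]
    exact Finset.sum_congr rfl fun t _ => hi t
  have s2 : ∑ t ∈ W, (mob (F + Q * t ^ 2) : ℝ) = (σ : ℝ) * ((Wσ.card : ℝ) - W'.card) := by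
    rw [hWσ, hW', Finset.card_filter, Finset.card_filter]
    push_cast
    rw [← Finset.sum_sub_distrib, Finset.mul_sum]
    exact Finset.sum_congr rfl fun t _ => hj t
  have s3 : |(Wσ.card : ℝ) - W'.card| ≤ 1 / 4 * V * (Fintype.card K : ℝ) ^ L := by
    rw [s2, abs_mul] at k6
    have h1 : |(σ : ℝ)| = 1 := by rcases hσ with h | h <;> rw [h] <;> norm_num
    rwa [h1, one_mul] at k6
  -- the part with square factors
  have s4 : (W0.card : ℝ) ≤ 1 / 8 * V * (Fintype.card K : ℝ) ^ L := by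
    refine le_trans ?_ hV2
    have hsub : W0 ⊆ ((PU K L).filter (fun P => P ∣ s ∧ z < P.natDegree ∧ P.natDegree ≤ L / 8)).biUnion
        (fun P => (Tn K L).filter (fun t => P ∣ F + Q * t ^ 2)) := by
      intro t ht
      rw [hW0, Finset.mem_filter, hW, Finset.mem_filter] at ht
      obtain ⟨⟨h1, h2⟩, h3⟩ := ht
      have h4 : ¬ Squarefree (F + Q * t ^ 2) := by
        rcases mob_cases (F + Q * t ^ 2) with h | h | ⟨-, h⟩
        · rw [h3] at h; norm_num at h
        · rw [h3] at h; norm_num at h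
        · exact h
      have hne : F + Q * t ^ 2 ≠ 0 := by
        rw [mem_Tn] at h1
        have hdeg : (Q * t ^ 2).degree < F.degree := by
          by_cases ht0 : t = 0
          · rw [ht0, zero_pow (by norm_num), mul_zero, degree_zero,
              degree_eq_natDegree hF.ne_zero]
            exact WithBot.bot_lt_coe _
          · rw [degree_eq_natDegree ht0] at h1
            have h1' : t.natDegree < L := by exact_mod_cast h1
            rw [degree_eq_natDegree hF.ne_zero, hFd,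
              degree_eq_natDegree (mul_ne_zero hQ.ne_zero (pow_ne_zero 2 ht0)),
              hQ.natDegree_mul' (pow_ne_zero 2 ht0), natDegree_pow, hQd]
            exact_mod_cast (by omega : w + 2 * t.natDegree < n)
        exact (hF.add_of_left hdeg).ne_zero
      rw [squarefree_iff_irreducible_sq_not_dvd_of_ne_zero hne] at h4
      push Not at h4
      obtain ⟨R, hR, hR2⟩ := h4
      have hlc : R.leadingCoeff ≠ 0 := mt leadingCoeff_eq_zero.1 hR.ne_zero
      set P := R * C R.leadingCoeff⁻¹ with hP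
      have hPm' : P.Monic := monic_mul_leadingCoeff_inv hR.ne_zero
      have hassoc : Associated R P := by
        have hu : IsUnit (C R.leadingCoeff⁻¹) :=
          isUnit_C.2 (isUnit_iff_ne_zero.2 (inv_ne_zero hlc))
        exact associated_mul_unit_right R _ hu
      have hPi : Irreducible P := hassoc.irreducible hR
      have hP2 : P * P ∣ F + Q * t ^ 2 := by
        refine dvd_trans ?_ hR2
        exact (hassoc.symm.mul_mul hassoc.symm).dvd
      have hPs : P ∣ s := by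
        have e1 := der hFs t
        obtain ⟨c, hc⟩ := hP2
        have e2 : Q * (F + Q * t ^ 2) = P * P * (Q * c) := by rw [hc]; ring
        rw [e2, derivative_mul, derivative_mul] at e1
        refine hPi.prime.dvd_of_dvd_pow (n := 2) ?_
        rw [← e1]
        refine dvd_add (Dvd.dvd.mul_right ?_ _) (Dvd.dvd.mul_right ?_ _)
        · exact dvd_add (dvd_mul_left _ _) (dvd_mul_right _ _)
        · exact dvd_mul_right _ _
      rw [Finset.mem_biUnion]
      refine ⟨P, ?_, ?_⟩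
      · have h5 := hss P hPm' hPi hPs
        rw [Finset.mem_filter]
        refine ⟨mem_PU.2 ⟨hPm', hPi, by omega⟩, hPs, ?_, h5⟩
        exact h2 P hPm' hPi ((dvd_mul_right P P).trans hP2)
      · rw [Finset.mem_filter]
        exact ⟨h1, (dvd_mul_right P P).trans hP2⟩
    have hc1 : W0.card ≤ ∑ P ∈ (PU K L).filter
        (fun P => P ∣ s ∧ z < P.natDegree ∧ P.natDegree ≤ L / 8), Fintype.card K ^ (L - z) := by
      refine (Finset.card_le_card hsub).trans (Finset.card_biUnion_le.trans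
        (Finset.sum_le_sum fun P hP => ?_))
      rw [Finset.mem_filter] at hP
      obtain ⟨h1, h2, h3, h4⟩ := hP
      have hP' := mem_PU.1 h1
      have hne : ¬ P ∣ Q := by
        intro h
        exact hP'.2.1.not_isUnit (hQs.isUnit_of_dvd' h h2)
      obtain ⟨r, hr1, hr2⟩ := hr K Q F P hP'.1 hP'.2.1 hne
      simp only [hr2]
      refine (card_class hP'.1 (by omega) hr1).trans ?_
      exact Nat.pow_le_pow_right (by omega) (by omega)
    rw [Finset.sum_const, smul_eq_mul] at hc1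
    have hc2 : ((PU K L).filter
        (fun P => P ∣ s ∧ z < P.natDegree ∧ P.natDegree ≤ L / 8)).card ≤ N := by
      refine le_trans (le_trans (Finset.card_le_card ?_) (card_dvd_e L hs)) hsd
      intro P hP
      rw [Finset.mem_filter] at hP ⊢
      exact ⟨hP.1, hP.2.1⟩
    have hc3 : W0.card ≤ N * Fintype.card K ^ (L - z) :=
      hc1.trans (Nat.mul_le_mul_right _ hc2)
    exact_mod_cast hc3
  have hWσ' : Wσ = (Tn K L).filter
      (fun t => mob (F + Q * t ^ 2) = σ ∧ Sft z (F + Q * t ^ 2)) := by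
    rw [hWσ, hW, Finset.filter_filter]
    refine Finset.filter_congr fun t _ => ?_
    tauto
  rw [← hWσ']
  have s5 := abs_le.1 s3
  linarith [s5.1, s5.2]

/-- **Task T2G.** -/
theorem t2G (hr : Pool.Agent.H560.AR.S_rtQ) (hv : Pool.Agent.H560.SI.S_vl)
    (hsw : Pool.Agent.H985.Par.S_sw) : S_t2G := by
  intro K _ _ _ lam κw cw hlam0 hκw hcw
  obtain ⟨A, hA⟩ := hsw K 1 (1 / 8) (by norm_num)
  obtain ⟨cv, hcv, Hv⟩ := hv K
  have hA1 : (0 : ℝ) < A + 1 := by positivity
  obtain ⟨κ, hκ0, k1, k2, k3⟩ : ∃ κ : ℝ, 0 < κ ∧ (A + 1) * κ ≤ lam / 16 ∧ (A + 1) * κ ≤ κw ∧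
      (A + 1) * κ ≤ cw / 4 := by
    refine ⟨min (lam / 16) (min κw (cw / 4)) / (A + 1), by positivity, ?_, ?_, ?_⟩ <;>
      rw [mul_div_cancel₀ _ hA1.ne']
    · exact min_le_left _ _
    · exact (min_le_right _ _).trans (min_le_left _ _)
    · exact (min_le_right _ _).trans (min_le_right _ _)
  have hA0 : (0 : ℝ) ≤ A := Nat.cast_nonneg A
  have hAκ : A * κ ≤ (A + 1) * κ := by nlinarith
  have hκA : κ ≤ (A + 1) * κ := by nlinarith
  set q : ℝ := (Fintype.card K : ℝ) with hq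
  have hq2 : 2 ≤ q := by
    have : 2 ≤ Fintype.card K := Fintype.one_lt_card
    rw [hq]
    exact_mod_cast this
  have hq0 : 0 < q := by linarith
  have hq1 : 1 < q := by linarith
  have hb1 : 1 < q ^ (cw / 2) := Real.one_lt_rpow hq1 (by positivity)
  have hb2 : 1 < q ^ κ := Real.one_lt_rpow hq1 hκ0
  obtain ⟨n1, hn1⟩ := exp_large hb1 (C := 16) (by norm_num) hcv 1
  obtain ⟨n2, hn2⟩ := exp_large hb2 (C := 8 * q) (by positivity) hcv 2
  obtain ⟨n4, hn4⟩ : ∃ n4 : ℕ, 1 / κ ≤ n4 := exists_nat_ge _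
  refine ⟨κ, cv / 4, hκ0, by positivity, n1 + n2 + n4 + 1, ?_⟩
  intro n hn L Q S G σ hlL hQ hQsq c2' hS hσ
  have e1 := hn1 n (by omega)
  have e2 := hn2 n (by omega)
  have e4 : 1 ≤ κ * n := by
    have h5 : (n4 : ℝ) ≤ n := by exact_mod_cast (by omega : n4 ≤ n)
    have h6 : 1 / κ ≤ n := hn4.trans h5
    rw [div_le_iff₀ hκ0] at h6
    linarith
  have hn0 : (0 : ℝ) ≤ n := Nat.cast_nonneg n
  have c2 : Q.natDegree + 2 * L ≤ n + 1 := by omega
  have hnpos' : (0 : ℝ) < n := by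
    have : 0 < n := by omega
    exact_mod_cast this
  -- z
  obtain ⟨z, hz⟩ : ∃ z, z = ⌊κ * n⌋₊ := ⟨_, rfl⟩
  have hz1 : (z : ℝ) ≤ κ * n := by
    rw [hz]
    exact Nat.floor_le (by positivity)
  have hz2 : κ * n < z + 1 := by
    rw [hz]
    exact Nat.lt_floor_add_one _
  have hz3 : 1 ≤ z := by
    rw [hz]
    exact Nat.le_floor (by exact_mod_cast e4)
  have hAzR : (A : ℝ) * z ≤ A * κ * n := by nlinarith
  have hAκn : A * κ * n ≤ (A + 1) * κ * n := mul_le_mul_of_nonneg_right hAκ hn0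
  have k1n : (A + 1) * κ * n ≤ lam / 16 * n := mul_le_mul_of_nonneg_right k1 hn0
  have k2n : (A + 1) * κ * n ≤ κw * n := mul_le_mul_of_nonneg_right k2 hn0
  have k3n : (A + 1) * κ * n ≤ cw / 4 * n := mul_le_mul_of_nonneg_right k3 hn0
  have hκn : κ * n ≤ (A + 1) * κ * n := mul_le_mul_of_nonneg_right hκA hn0
  have hL0 : 0 ≤ lam * n := by positivity
  have hLR : 16 * ((z : ℝ)) ≤ L := by linarith
  have hAzL : A * z ≤ L := by
    have : (A * z : ℝ) ≤ L := by linarith
    exact_mod_cast this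
  have hzL : 16 * z ≤ L := by exact_mod_cast hLR
  have hzn : (z : ℝ) ≤ n := by
    have : z ≤ n := by omega
    exact_mod_cast this
  -- V
  obtain ⟨V, hV⟩ : ∃ V : ℝ, V = ∏ P ∈ (PU K z).filter (fun P => ¬ P ∣ Q),
    (1 - 1 / (Fintype.card K : ℝ) ^ P.natDegree) := ⟨_, rfl⟩
  have hloc : ∀ P ∈ PU K z, 0 ≤ 1 - 1 / (Fintype.card K : ℝ) ^ P.natDegree ∧
      1 - 1 / (Fintype.card K : ℝ) ^ P.natDegree ≤ 1 := by
    intro P hP
    have h1 : (1 : ℝ) ≤ (Fintype.card K : ℝ) ^ P.natDegree := one_le_pow₀ (by rw [← hq]; linarith)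
    have h2 : 1 / (Fintype.card K : ℝ) ^ P.natDegree ≤ 1 := by
      rw [div_le_one (by linarith)]
      exact h1
    have h3 : 0 ≤ 1 / (Fintype.card K : ℝ) ^ P.natDegree := by positivity
    exact ⟨by linarith, by linarith⟩
  have hV1 : cv / z ≤ V := by
    refine (Hv z hz3).trans ?_
    rw [hV, ← Finset.prod_filter_mul_prod_filter_not (PU K z) (fun P => ¬ P ∣ Q)]
    refine mul_le_of_le_one_right (Finset.prod_nonneg fun P hP =>
      (hloc P (Finset.mem_filter.1 hP).1).1) (Finset.prod_le_one (fun P hP =>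
      (hloc P (Finset.mem_filter.1 hP).1).1) fun P hP => (hloc P (Finset.mem_filter.1 hP).1).2)
  have hzpos : (0 : ℝ) < z := by
    have : 0 < z := by omega
    exact_mod_cast this
  have hV2 : cv / n ≤ V := le_trans (by gcongr) hV1
  have hV0 : 0 < V := lt_of_lt_of_le (by positivity) hV2
  have hqL : 0 < q ^ L := by positivity
  -- B
  have hB1 : 2 * ((2 : ℝ) * Fintype.card K) ^ (A * z) * q ^ ((L : ℝ) - cw * n) ≤
      1 / 8 * V * (Fintype.card K : ℝ) ^ L := by
    rw [← hq]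
    have b1 : (2 * q) ^ (A * z) ≤ q ^ (cw / 2 * n) := by
      have b2 : (2 * q) ^ (A * z) ≤ (q * q) ^ (A * z) := by gcongr
      refine b2.trans ?_
      rw [← sq, ← pow_mul, ← Real.rpow_natCast]
      refine Real.rpow_le_rpow_of_exponent_le hq1.le ?_
      push_cast
      linarith
    have b3 : q ^ ((L : ℝ) - cw * n) = q ^ L * (q ^ (cw / 2 * n))⁻¹ * (q ^ (cw / 2 * n))⁻¹ := by
      rw [← Real.rpow_natCast, ← Real.rpow_neg hq0.le, ← Real.rpow_add hq0, ← Real.rpow_add hq0]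
      congr 1
      ring
    have b4 : q ^ (cw / 2 * n) = (q ^ (cw / 2)) ^ n := by
      rw [← Real.rpow_natCast, ← Real.rpow_mul hq0.le]
    have b5 : 0 < q ^ (cw / 2 * n) := by positivity
    have b6 : 16 * (n : ℝ) ≤ cv * q ^ (cw / 2 * n) := by
      rw [b4]
      simpa using e1
    have b7 : 2 * (q ^ (cw / 2 * n))⁻¹ ≤ 1 / 8 * V := by
      have b8 : 2 * (q ^ (cw / 2 * n))⁻¹ ≤ 1 / 8 * (cv / n) := by
        rw [← div_eq_mul_inv, div_le_iff₀ b5]
        have b9 : 1 / 8 * (cv / n) * q ^ (cw / 2 * n) = (cv * q ^ (cw / 2 * n)) / (8 * n) := by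
          field_simp
        rw [b9, le_div_iff₀ (by positivity)]
        linarith
      linarith
    calc 2 * (2 * q) ^ (A * z) * q ^ ((L : ℝ) - cw * n)
        ≤ 2 * q ^ (cw / 2 * n) * q ^ ((L : ℝ) - cw * n) := by gcongr
      _ = (2 * (q ^ (cw / 2 * n))⁻¹) * q ^ L := by
          rw [b3]
          field_simp
      _ ≤ (1 / 8 * V) * q ^ L := by gcongr
      _ = _ := by ring
  have hB2 : (n : ℝ) * (Fintype.card K : ℝ) ^ (L - z) ≤ 1 / 8 * V * (Fintype.card K : ℝ) ^ L := by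
    rw [← hq]
    have b1 : q ^ L = q ^ (L - z) * q ^ z := by
      rw [← pow_add]
      congr 1
      omega
    have b2 : (q ^ κ) ^ n ≤ q ^ z * q := by
      rw [← pow_succ, ← Real.rpow_natCast, ← Real.rpow_natCast, ← Real.rpow_mul hq0.le]
      refine Real.rpow_le_rpow_of_exponent_le hq1.le ?_
      push_cast
      linarith
    have b3 : 8 * q * (n : ℝ) ^ 2 ≤ cv * (q ^ z * q) := e2.trans (by gcongr)
    have b4 : 8 * (n : ℝ) ^ 2 ≤ cv * q ^ z := by
      have : q * (8 * (n : ℝ) ^ 2) ≤ q * (cv * q ^ z) := by linarith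
      exact le_of_mul_le_mul_left this hq0
    have b5 : (n : ℝ) ≤ 1 / 8 * V * q ^ z := by
      have b6 : (n : ℝ) ≤ 1 / 8 * (cv / n) * q ^ z := by
        have b7 : 1 / 8 * (cv / n) * q ^ z = (cv * q ^ z) / (8 * n) := by
          field_simp
        rw [b7, le_div_iff₀ (by positivity)]
        linarith
      calc (n : ℝ) ≤ 1 / 8 * (cv / n) * q ^ z := b6
        _ ≤ 1 / 8 * V * q ^ z := by gcongr
    rw [b1]
    calc (n : ℝ) * q ^ (L - z) ≤ (1 / 8 * V * q ^ z) * q ^ (L - z) := by gcongr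
      _ = _ := by ring
  -- the windows
  have hex : ∀ s : K[X], ∃ F : K[X], s ∈ S → F.Monic ∧ F.natDegree = n ∧
      derivative (Q * F) = s ^ 2 ∧
        ∀ t : K[X], t.degree < (L : WithBot ℕ) → F + Q * t ^ 2 ∈ G := by
    intro s
    by_cases hs' : s ∈ S
    · obtain ⟨F, hF⟩ := (hS s hs').2.2.2.2.2.1
      exact ⟨F, fun _ => hF⟩
    · exact ⟨0, fun h => absurd h hs'⟩
  choose Fs hFs using hex
  obtain ⟨p, hp⟩ : ∃ p : K[X] → Prop, ∀ f, p f ↔ (mob f = σ ∧ Sft z f) :=
    ⟨fun f => mob f = σ ∧ Sft z f, fun f => Iff.rfl⟩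
  have hY : ∀ s ∈ S, 1 / 4 * V * q ^ L ≤
      ((Tn K L).filter (fun t => p (Fs s + Q * t ^ 2))).card := by
    intro s hs'
    have hE : (Tn K L).filter (fun t => p (Fs s + Q * t ^ 2)) = (Tn K L).filter
        (fun t => mob (Fs s + Q * t ^ 2) = σ ∧ Sft z (Fs s + Q * t ^ 2)) :=
      Finset.filter_congr fun t _ => hp _
    rw [hE]
    obtain ⟨s1, s2, s4, s5, s6, -, s7⟩ := hS s hs'
    obtain ⟨f1, f2, f3, -⟩ := hFs s hs'
    refine window hr hA (B := q ^ ((L : ℝ) - cw * n)) (N := n) c2 hz3 (by omega) hAzL hQ rfl s6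
      s1 s2 s5 f1 f2 f3 (by positivity) ?_ hV hB1 hB2 hσ
    intro F' D L' t1 t2 t3 t4 t5 t6
    refine s7 F' t1 t2 t3 D L' t4 ?_ t6
    have t7 : (D.natDegree : ℝ) ≤ (A * z : ℕ) := by exact_mod_cast t5
    push_cast at t7
    linarith
  have h3 := fibres hQ.ne_zero S G Fs p
    (1 / 4 * V * q ^ L) (fun s hs' => ⟨(hFs s hs').2.2.1, (hFs s hs').2.2.2⟩) hY
  have hE : G.filter p = G.filter (fun f => mob f = σ ∧ Sft z f) :=
    Finset.filter_congr fun f _ => hp f
  rw [hE] at h3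
  rw [← hz]
  refine le_trans ?_ h3
  calc cv / 4 * (S.card : ℝ) * q ^ L / n = (S.card : ℝ) * (1 / 4 * (cv / n) * q ^ L) := by ring
    _ ≤ (S.card : ℝ) * (1 / 4 * V * q ^ L) := by gcongr

end Pool.Agent.H120.SQ
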